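import Mathlib
import Pool.Agent.R499.BadFinal
import Pool.Agent.Results.MP_a02e6b_nt.ThreeModFour

set_option autoImplicit false

namespace Pool.Agent.Results.MP_a02e6b_nt.AlmostAllPrimes

open Filter Topology

/-- The map `n ↦ φ(n) + 1`. -/
def f (n : ℕ) : ℕ := Nat.totient n + 1

/-- `A p`: the positive integers whose orbit under `n ↦ φ(n) + 1` reaches `p`. -/
def A (p : ℕ) : Set ℕ := {n | 1 ≤ n ∧ ∃ i : ℕ, f^[i] n = p}

open Classical in
/-- The set `S` of positive integers has natural density `d`. -/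
def HasDensity (S : Set ℕ) (d : ℝ) : Prop :=
  Tendsto (fun x : ℕ => (((Finset.Icc 1 x).filter (fun n => n ∈ S)).card : ℝ) / x) atTop (𝓝 d)

/-- `Good p`: the set `A p` is the finite set of the `n` with `φ(n) = p - 1`, and its natural
density exists and equals `0`. -/
def Good (p : ℕ) : Prop :=
  A p = {n : ℕ | 1 ≤ n ∧ Nat.totient n = p - 1} ∧ (A p).Finite ∧ HasDensity (A p) 0

lemma good_of_not_bad (p : ℕ) (hp : p.Prime) (h : ¬ Pool.Agent.R499.BadPrimes.Bad p) : Good p := by
  have h1 : ∀ m : ℕ, Odd m → 1 < m → ¬ m.Prime → Nat.totient m ≠ p - 1 := by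
    intro m hm h1 hmp he
    exact h ⟨hp, m, hm, h1, hmp, he⟩
  have h2 : A p = {n : ℕ | 1 ≤ n ∧ Nat.totient n = p - 1} :=
    Pool.Agent.Results.MP_a02e6b_nt.ThreeModFour.A_eq_fibre hp h1
  have h3 : (A p).Finite := by
    rw [h2]
    exact Pool.Agent.Results.MP_a02e6b_nt.ThreeModFour.fibre_finite _
  exact ⟨h2, h3, Pool.Agent.Results.MP_a02e6b_nt.ThreeModFour.hasDensity_of_finite h3⟩

open Classical in
/-- For almost all primes `p` the set `A p` is the finite set of the solutions of `φ(n) = p - 1`, and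
so has natural density `0`: the number of the exceptional primes up to `X` is
`O(X / (log X)^(6/5))`, and the good primes have relative density `1` in the primes. -/
theorem result :
    (∃ C : ℝ, 0 < C ∧ ∀ X : ℕ, 2 ≤ X →
      (((Finset.Icc 1 X).filter (fun p => p.Prime ∧ ¬ Good p)).card : ℝ) ≤
        C * X / Real.log X ^ (6 / 5 : ℝ)) ∧
    Tendsto (fun X : ℕ => (((Finset.Icc 1 X).filter (fun p => p.Prime ∧ Good p)).card : ℝ) /
      (Nat.primeCounting X : ℝ)) atTop (𝓝 1) := by
  constructor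
  · obtain ⟨C, hC0, hC⟩ := Pool.Agent.R499.BadPrimes.bad_final
    refine ⟨C, hC0, fun X hX => le_trans ?_ (hC X hX)⟩
    apply Nat.cast_le.2
    apply Finset.card_le_card
    intro p hp
    rw [Finset.mem_filter] at hp ⊢
    refine ⟨hp.1, ?_⟩
    by_contra hcon
    exact hp.2.2 (good_of_not_bad p hp.2.1 hcon)
  · exact Pool.Agent.R499.BadPrimes.good_ratio Good good_of_not_bad

end Pool.Agent.Results.MP_a02e6b_nt.AlmostAllPrimes
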